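import Pool.Agent.N352.HP.Stm

/-! Periods of words: Fine and Wilf, extension of periods, borders of borders, and a lemma on two
continuations of a word. -/

set_option autoImplicit false

namespace N352HP

theorem per_iff_hasPeriod {α : Type} (w : ℕ → α) (n p : ℕ) :
    Per w n p ↔ List.HasPeriod (List.ofFn (fun i : Fin n => w i)) p := by
  rw [List.hasPeriod_iff_getElem?]
  simp only [List.length_ofFn]
  constructor
  · intro h i hi
    have h1 : i + p < n := by omega
    have h2 : i < n := by omega
    simp only [List.getElem?_ofFn, h1, h2, dif_pos]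
    rw [h i h1]
  · intro h i hi
    have h1 := h i (by omega)
    have h2 : i < n := by omega
    simp only [List.getElem?_ofFn, hi, h2, dif_pos] at h1
    exact (Option.some.inj h1).symm

theorem fw : S_FW := by
  intro α w n p q hp hq h1 h2 hl
  rw [per_iff_hasPeriod] at *
  exact h1.gcd h2 (by simp only [List.length_ofFn]; omega)

/-- `Per` for a multiple of a period -/
theorem Per.mul {α : Type} {w : ℕ → α} {n p : ℕ} (h : Per w n p) (m : ℕ) : Per w n (p * m) := by
  induction m with
  | zero => intro i _; simp
  | succ m ih =>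
    intro i hi
    have h1 := ih i (by rw [Nat.mul_succ] at hi; omega)
    have h2 := h (i + p * m) (by rw [Nat.mul_succ] at hi; omega)
    rw [Nat.mul_succ, ← add_assoc, h2, h1]

theorem Per.dvd {α : Type} {w : ℕ → α} {n p q : ℕ} (h : Per w n p) (hd : p ∣ q) : Per w n q := by
  obtain ⟨m, rfl⟩ := hd
  exact h.mul m

theorem Per.mono {α : Type} {w : ℕ → α} {n m p : ℕ} (h : Per w n p) (hm : m ≤ n) : Per w m p :=
  fun i hi => h i (by omega)

/-- EXT: if `s` is a period of `w` (length `n`) and the divisor `D` of `s` is a period of the prefix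
of length `m ≥ s`, then `D` is a period of `w`. -/
theorem per_ext {α : Type} {w : ℕ → α} {n m s D : ℕ} (hs : Per w n s)
    (hD : Per w m D) (hsm : s ≤ m) (hd : D ∣ s) (hs1 : 1 ≤ s) : Per w n D := by
  have hDs : D ≤ s := Nat.le_of_dvd hs1 hd
  intro i
  induction i using Nat.strong_induction_on with
  | _ i ih =>
    intro hi
    by_cases h1 : i + D < m
    · exact hD i h1
    · by_cases h2 : s ≤ i
      · obtain ⟨j, rfl⟩ := Nat.exists_eq_add_of_le h2
        have e1 := hs (j + D) (by omega)
        have e2 := hs j (by omega)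
        have e3 := ih j (by omega) (by omega)
        rw [show s + j + D = j + D + s by ring, e1, show s + j = j + s by ring, e2, e3]
      · -- `i < s ≤ i + D`
        have h3 : s ≤ i + D := by omega
        obtain ⟨t, ht⟩ := Nat.exists_eq_add_of_le h3
        have e1 := hs t (by omega)
        have hsD : D ∣ s - D := Nat.dvd_sub hd dvd_rfl
        have e2 := (hD.dvd hsD) t (by omega)
        rw [ht, show s + t = t + s by ring, e1]
        rw [← e2]
        congr 1
        omega

/-- BRD: borders of borders -/
theorem per_border {α : Type} {w : ℕ → α} {n c x : ℕ} (hc : c ≤ n) (h : Per w n (n - c))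
    (hx : x < c) : Per w n (n - x) ↔ Per w c (c - x) := by
  constructor
  · intro h1 i hi
    have e1 := h1 i (by omega)
    have e2 := h (i + (c - x)) (by omega)
    rw [← e2, ← e1]
    congr 1
    omega
  · intro h1 i hi
    have e1 := h1 i (by omega)
    have e2 := h (i + (c - x)) (by omega)
    rw [← e1, ← e2]
    congr 1
    omega

/-- arithmetic for `two` -/
theorem two_arith {n g p q : ℕ} (hp : p ∣ n) (hq : q ∣ n) (hpq : p < q) (hqn : q < n) (hp1 : 1 ≤ p)
    (hg : g ≤ p) : p + q + g ≤ n + Nat.gcd p q := by
  obtain ⟨t, ht⟩ := hp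
  obtain ⟨r, hr⟩ := hq
  have hr2 : 2 ≤ r := by
    by_contra h
    have : r = 0 ∨ r = 1 := by omega
    rcases this with h | h <;> subst h <;> omega
  by_cases hr3 : 3 ≤ r
  · have : q * 3 ≤ q * r := Nat.mul_le_mul_left _ hr3
    omega
  · have hr' : r = 2 := by omega
    subst hr'
    have ht3 : 3 ≤ t := by
      by_contra h
      have h1 : p * t ≤ p * 2 := Nat.mul_le_mul_left _ (by omega)
      omega
    by_cases ht4 : 4 ≤ t
    · have : p * 4 ≤ p * t := Nat.mul_le_mul_left _ ht4
      omega
    · have ht' : t = 3 := by omega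
      subst ht'
      -- `3 p = 2 q`, `p = 2 h`, `q = 3 h`
      have h2 : 2 ∣ p := by omega
      obtain ⟨h, rfl⟩ := h2
      have hq' : q = 3 * h := by omega
      subst hq'
      have hgcd : Nat.gcd (2 * h) (3 * h) = h := by
        rw [Nat.gcd_mul_right]; simp
      omega

/-- TWO: `v` and `v'` are two continuations of the same word of length `n - g` by `g` letters, with
periods `p`, `q` that are proper divisors of `n` and at least `g`. Then they are equal. -/
theorem two {α : Type} {v v' : ℕ → α} {n g p q : ℕ} (hg : g ≤ n)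
    (he : ∀ i, i < n - g → v i = v' i) (hp : p ∣ n) (hq : q ∣ n) (hpn : p < n) (hqn : q < n)
    (hp1 : 1 ≤ p) (hq1 : 1 ≤ q) (hgp : g ≤ p) (hgq : g ≤ q) (h1 : Per v n p) (h2 : Per v' n q) :
    ∀ i, i < n → v i = v' i := by
  -- reduce to `p ≤ q`
  wlog hpq : p ≤ q generalizing v v' p q with H
  · intro i hi
    exact (H (v := v') (v' := v) (fun i hi => (he i hi).symm) hq hp hqn hpn hq1 hp1 hgq hgp h2 h1
      (by omega) i hi).symm
  have hp2 : 2 * p ≤ n := by
    obtain ⟨t, rfl⟩ := hp
    have : 2 ≤ t := by
      by_contra h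
      have : t = 0 ∨ t = 1 := by omega
      rcases this with h | h <;> subst h <;> omega
    nlinarith
  have hq2 : 2 * q ≤ n := by
    obtain ⟨t, rfl⟩ := hq
    have : 2 ≤ t := by
      by_contra h
      have : t = 0 ∨ t = 1 := by omega
      rcases this with h | h <;> subst h <;> omega
    nlinarith
  intro i hi
  by_cases hi' : i < n - g
  · exact he i hi'
  have e1 : v i = v (i - p) := by
    have := h1 (i - p) (by omega)
    rw [← this]; congr 1; omega
  have e2 : v' i = v' (i - q) := by
    have := h2 (i - q) (by omega)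
    rw [← this]; congr 1; omega
  rcases Nat.lt_or_ge p q with hlt | hge
  · have har := two_arith hp hq hlt hqn hp1 hgp
    have hu1 : Per v (n - g) p := h1.mono (by omega)
    have hu2 : Per v (n - g) q := by
      intro j hj
      rw [he _ hj, he _ (by omega)]
      exact h2 j (by omega)
    have hu := fw α v (n - g) p q hp1 hq1 hu1 hu2 (by omega)
    have hd : Nat.gcd p q ∣ q - p := Nat.dvd_sub (Nat.gcd_dvd_right _ _) (Nat.gcd_dvd_left _ _)
    have e3 := (hu.dvd hd) (i - q) (by omega)
    rw [e1, e2, ← he (i - q) (by omega), ← e3]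
    congr 1
    omega
  · have : p = q := by omega
    subst this
    rw [e1, e2]
    exact he _ (by omega)

/-- the sum of the displacements is zero -/
theorem DW.sum {k : ℕ} {d : ℕ → ℤ} (h : DW k d) : ∑ i ∈ Finset.range k, d i = 0 := by
  have h1 : ∑ i ∈ Finset.range k, ((i : ℤ) + d i) = ∑ i ∈ Finset.range k, (i : ℤ) := by
    have hm : ∀ i ∈ Finset.range k, ((i : ℤ) + d i).toNat ∈ Finset.range k := by
      intro i hi
      rw [Finset.mem_range] at hi ⊢
      have := h.1 i hi
      omega
    have hinj : Set.InjOn (fun i : ℕ => ((i : ℤ) + d i).toNat) (Finset.range k : Set ℕ) := by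
      intro i hi j hj hij
      simp only [Finset.coe_range, Set.mem_Iio] at hi hj
      have a1 := h.1 i hi
      have a2 := h.1 j hj
      simp only at hij
      exact h.2 i j hi hj (by omega)
    have himg : (Finset.range k).image (fun i : ℕ => ((i : ℤ) + d i).toNat) = Finset.range k := by
      apply Finset.eq_of_subset_of_card_le
      · intro x hx
        rw [Finset.mem_image] at hx
        obtain ⟨i, hi, rfl⟩ := hx
        exact hm i hi
      · rw [Finset.card_image_of_injOn hinj]
    calc ∑ i ∈ Finset.range k, ((i : ℤ) + d i)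
        = ∑ i ∈ Finset.range k, ((((i : ℤ) + d i).toNat : ℕ) : ℤ) := by
          apply Finset.sum_congr rfl
          intro i hi
          rw [Finset.mem_range] at hi
          have := h.1 i hi
          omega
      _ = ∑ x ∈ (Finset.range k).image (fun i : ℕ => ((i : ℤ) + d i).toNat), (x : ℤ) := by
          rw [Finset.sum_image hinj]
      _ = _ := by rw [himg]
  rw [Finset.sum_add_distrib] at h1
  omega

/-- the prefix of the length of a border is a displacement word -/
theorem DW.border {k c : ℕ} {d : ℕ → ℤ} (h : DW k d) (hc : c ≤ k) (hp : Per d k (k - c)) :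
    DW c d := by
  refine ⟨fun i hi => ?_, fun i j hi hj => h.2 i j (by omega) (by omega)⟩
  have h1 := h.1 i (by omega)
  have h2 := h.1 (i + (k - c)) (by omega)
  have h3 := hp i (by omega)
  rw [h3] at h2
  omega

end N352HP
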