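import Mathlib

/-!
# Wilf classes of Hertzsprung patterns and palindromic prefixes: definitions and statements

All the tasks of the proof of `a_k = b_{k+1}` (`MP_7acacd_co`).
-/

set_option autoImplicit false

namespace N352HP

/-! ### periods of words -/

/-- `p` is a period of the word `w 0, …, w (n-1)` -/
def Per {α : Type} (w : ℕ → α) (n p : ℕ) : Prop := ∀ i, i + p < n → w (i + p) = w i

/-- Fine and Wilf -/
def S_FW : Prop := ∀ (α : Type) (w : ℕ → α) (n p q : ℕ), 1 ≤ p → 1 ≤ q → Per w n p → Per w n q →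
  p + q ≤ n + Nat.gcd p q → Per w n (Nat.gcd p q)

/-- `d 0, …, d (k-1)` is the displacement word `i ↦ σ i - i` of a permutation `σ` of
`0, …, k-1` -/
def DW (k : ℕ) (d : ℕ → ℤ) : Prop :=
  (∀ i, i < k → 0 ≤ (i : ℤ) + d i ∧ (i : ℤ) + d i < k) ∧
  ∀ i j, i < k → j < k → (i : ℤ) + d i = j + d j → i = j

/-- the set `C` is the set of the lengths of the proper borders of a displacement word of
length `k` -/
def RW (k : ℕ) (C : Finset ℕ) : Prop :=
  ∃ d : ℕ → ℤ, DW k d ∧ ∀ c, c ∈ C ↔ (1 ≤ c ∧ c < k ∧ Per d k (k - c))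

/-- `c ↦ c + 1` maps `C` to the set of the lengths (except `1` and `k + 1`) of the borders, i.e. of
the palindromic prefixes, of a palindrome of length `k + 1` -/
def RP (k : ℕ) (C : Finset ℕ) : Prop :=
  ∃ w : ℕ → Bool, (∀ i, i ≤ k → w (k - i) = w i) ∧
    ∀ c, c ∈ C ↔ (1 ≤ c ∧ c < k ∧ Per w (k + 1) (k - c))

/-- the condition of the recursion -/
def Cond (k c : ℕ) (C : Finset ℕ) : Prop :=
  2 * c + 2 ≤ k ∨
  (k = 2 * c + 1 ∧ ∀ d, d ∣ c + 1 → d < c + 1 → c ≠ d ∧ c - d ∉ C) ∨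
  (k ≤ 2 * c ∧ (k = 2 * c ∨ c - (k - c) ∈ C) ∧ ∀ d, d ∣ k - c → d < k - c → c - d ∉ C)

/-- W0 -/
def S_W0 : Prop := ∀ k, 1 ≤ k → RW k ∅

/-- P0 -/
def S_P0 : Prop := ∀ k, 1 ≤ k → RP k ∅

/-- WN: necessity of the conditions of the recursion, displacement words -/
def S_WN : Prop := ∀ k c C, 1 ≤ c → c < k → (∀ x ∈ C, x < c) →
  RW k (insert c C) → RW c C ∧ Cond k c C

/-- WS: sufficiency, displacement words -/
def S_WS : Prop := ∀ k c C, 1 ≤ c → c < k → (∀ x ∈ C, x < c) →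
  RW c C → Cond k c C → RW k (insert c C)

/-- PN: necessity, palindromes -/
def S_PN : Prop := ∀ k c C, 1 ≤ c → c < k → (∀ x ∈ C, x < c) →
  RP k (insert c C) → RP c C ∧ Cond k c C

/-- PS: sufficiency, palindromes -/
def S_PS : Prop := ∀ k c C, 1 ≤ c → c < k → (∀ x ∈ C, x < c) →
  RP c C → Cond k c C → RP k (insert c C)

/-! ### Hertzsprung patterns -/

/-- the pattern `σ` occurs in `π` at the positions `i, …, i + k - 1` (positions from `0`) -/
def OccAt {k n : ℕ} (σ : Equiv.Perm (Fin k)) (π : Equiv.Perm (Fin n)) (i : ℕ) : Prop :=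
  ∃ h : i + k ≤ n, ∃ d : ℤ, ∀ j : Fin k,
    ((π ⟨i + (j : ℕ), by have := j.2; omega⟩ : ℕ) : ℤ) = ((σ j : ℕ) : ℤ) + d

/-- the Hertzsprung pattern `σ` occurs in `π` -/
def Occ {k n : ℕ} (σ : Equiv.Perm (Fin k)) (π : Equiv.Perm (Fin n)) : Prop := ∃ i, OccAt σ π i

/-- the number `|S_n(σ)|` of the permutations of length `n` avoiding `σ` -/
noncomputable def av {k : ℕ} (σ : Equiv.Perm (Fin k)) (n : ℕ) : ℕ :=
  Nat.card {π : Equiv.Perm (Fin n) // ¬ Occ σ π}

/-- the displacement word of `σ` -/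
def dis {k : ℕ} (σ : Equiv.Perm (Fin k)) (i : ℕ) : ℤ :=
  if h : i < k then ((σ ⟨i, h⟩ : ℕ) : ℤ) - i else 0

/-- `s` is a positive shift of `σ`: `σ (j + s) = σ j + s` whenever `j + s < k` -/
def ShP {k : ℕ} (σ : Equiv.Perm (Fin k)) (s : ℕ) : Prop :=
  ∀ (j : ℕ) (h : j + s < k), (σ ⟨j + s, h⟩ : ℕ) = (σ ⟨j, by omega⟩ : ℕ) + s

/-- `s` is a negative shift of `σ`: `σ (j + s) = σ j - s` whenever `j + s < k` -/
def ShN {k : ℕ} (σ : Equiv.Perm (Fin k)) (s : ℕ) : Prop :=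
  ∀ (j : ℕ) (h : j + s < k), (σ ⟨j + s, h⟩ : ℕ) + s = (σ ⟨j, by omega⟩ : ℕ)

/-- the shifts of `σ` -/
def Sh {k : ℕ} (σ : Equiv.Perm (Fin k)) : Set ℕ := {s | 1 ≤ s ∧ s < k ∧ (ShP σ s ∨ ShN σ s)}

/-- all the differences of two consecutive elements of `M` that are smaller than `k` are in `P` -/
def Adm (k : ℕ) (P : Set ℕ) (M : Finset ℕ) : Prop :=
  ∀ i ∈ M, ∀ j ∈ M, i < j → j < i + k → (∀ x ∈ M, ¬ (i < x ∧ x < j)) → j - i ∈ P

/-- the number of the permutations of length `n` with an occurrence of `σ` at all `i ∈ M` -/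
noncomputable def NM {k : ℕ} (σ : Equiv.Perm (Fin k)) (n : ℕ) (M : Finset ℕ) : ℕ :=
  Nat.card {π : Equiv.Perm (Fin n) // ∀ i ∈ M, OccAt σ π i}

/-- A0: a permutation does not have both positive and negative shifts -/
def S_A0 : Prop := ∀ (k : ℕ) (σ : Equiv.Perm (Fin k)) (s t : ℕ), 1 ≤ s → s < k → 1 ≤ t → t < k →
  ShP σ s → ¬ ShN σ t

/-- A1: a pair of overlapping occurrences comes from a shift -/
def S_A1 : Prop := ∀ (k n : ℕ) (σ : Equiv.Perm (Fin k)) (π : Equiv.Perm (Fin n)) (i s : ℕ),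
  1 ≤ s → s < k → OccAt σ π i → OccAt σ π (i + s) → s ∈ Sh σ

/-- A2: the numbers of permutations with occurrences at given places -/
def S_A2 : Prop := ∀ (k n : ℕ) (σ : Equiv.Perm (Fin k)) (M : Finset ℕ), 1 ≤ k →
  (∀ i ∈ M, i + k ≤ n) → Adm k (Sh σ) M → NM σ n M = NM (1 : Equiv.Perm (Fin k)) n M

/-- A3: Wilf equivalence is equality of the sets of shifts -/
def S_A3 : Prop := ∀ (k : ℕ), 1 ≤ k → ∀ (σ τ : Equiv.Perm (Fin k)),
  (∀ n, av σ n = av τ n) ↔ Sh σ = Sh τ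

/-! ### the numbers `a_k` and `b_k` -/

/-- Wilf equivalence -/
def wilf (k : ℕ) : Setoid (Equiv.Perm (Fin k)) where
  r σ τ := ∀ n, av σ n = av τ n
  iseqv := ⟨fun _ _ => rfl, fun h n => (h n).symm, fun h h' n => (h n).trans (h' n)⟩

/-- the number `a_k` of the Wilf classes of `S_k` -/
noncomputable def a (k : ℕ) : ℕ := Nat.card (Quotient (wilf k))

/-- the set `P(w)` of the lengths of the palindromic prefixes of `w` -/
def PP (w : List Bool) : Set ℕ := {i | 1 ≤ i ∧ i ≤ w.length ∧ (w.take i).reverse = w.take i}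

/-- the number `b_k` of the sets `P(w)` of the palindromes `w` of length `k` -/
noncomputable def b (k : ℕ) : ℕ :=
  Set.ncard {P : Set ℕ | ∃ w : List Bool, w.length = k ∧ w.reverse = w ∧ PP w = P}

/-- B: the number of the sets `P(w)` in terms of `RP` -/
def S_B : Prop := ∀ k, 1 ≤ k → b (k + 1) = Set.ncard {C : Finset ℕ | RP k C}

/-- A: the number of the Wilf classes in terms of `RW` -/
def S_A : Prop := ∀ k, 3 ≤ k → a k = Set.ncard {C : Finset ℕ | RW k C}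

/-- the goal -/
def Goal : Prop := ∀ k, 3 ≤ k → a k = b (k + 1)

end N352HP
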